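import Pool.Agent.N830.VR.Stm
import Pool.Agent.W180.OP.Global

/-!
# Leaves UP, NEAR, HT, LI1 of the project VR
-/

set_option autoImplicit false

namespace Pool.Agent.N539.VR

open Polynomial
open Pool.Agent.W180.OP (Pl av wt nrm le_nrm nrm_pos null_hom liou lam_eq)
open Pool.Agent.N830.VR

theorem one_le_nrm {F : Type} [Field F] (f : AbsoluteValue F ℝ) (t : F) : 1 ≤ nrm f ![t, 1] := by
  have := le_nrm f ![t, 1] 1
  simpa using this

theorem le_nrm0 {F : Type} [Field F] (f : AbsoluteValue F ℝ) (t : F) : f t ≤ nrm f ![t, 1] := by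
  have := le_nrm f ![t, 1] 0
  simpa using this

theorem up : S_UP := by
  intro F _ f P N hP
  obtain ⟨B, hB⟩ : ∃ B : ℝ, B = 1 + ∑ j, ∑ i ∈ Finset.range (N + 1), f ((P j).coeff i) := ⟨_, rfl⟩
  have hnn : ∀ j, 0 ≤ ∑ i ∈ Finset.range (N + 1), f ((P j).coeff i) := fun j =>
    Finset.sum_nonneg fun _ _ => f.nonneg _
  have hle : ∀ j, ∑ i ∈ Finset.range (N + 1), f ((P j).coeff i) ≤ B := by
    intro j
    have := Finset.single_le_sum (f := fun j => ∑ i ∈ Finset.range (N + 1), f ((P j).coeff i))
      (fun j _ => hnn j) (Finset.mem_univ j)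
    rw [hB]
    linarith
  have hB0 : 0 < B := by
    rw [hB]
    have := Finset.sum_nonneg fun j (_ : j ∈ (Finset.univ : Finset (Fin 3))) => hnn j
    linarith
  refine ⟨Real.log B, fun t ht => ?_⟩
  have hn1 := one_le_nrm f t
  have hnt := le_nrm0 f t
  have h1 : ∀ j, f (eval t (P j)) ≤ B * nrm f ![t, 1] ^ N := by
    intro j
    rw [Polynomial.eval_eq_sum_range' (Nat.lt_succ_of_le (hP j)) t]
    calc f (∑ i ∈ Finset.range (N + 1), (P j).coeff i * t ^ i)
        ≤ ∑ i ∈ Finset.range (N + 1), f ((P j).coeff i * t ^ i) := f.sum_le _ _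
      _ ≤ ∑ i ∈ Finset.range (N + 1), f ((P j).coeff i) * nrm f ![t, 1] ^ N := by
          refine Finset.sum_le_sum fun i hi => ?_
          rw [map_mul, map_pow]
          refine mul_le_mul_of_nonneg_left ?_ (f.nonneg _)
          have hi' : i ≤ N := by
            have := Finset.mem_range.1 hi
            omega
          exact (pow_le_pow_left₀ (f.nonneg _) hnt i).trans (pow_le_pow_right₀ hn1 hi')
      _ = (∑ i ∈ Finset.range (N + 1), f ((P j).coeff i)) * nrm f ![t, 1] ^ N :=
          (Finset.sum_mul _ _ _).symm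
      _ ≤ B * nrm f ![t, 1] ^ N := mul_le_mul_of_nonneg_right (hle j) (by positivity)
  have h2 : nrm f (fun j => eval t (P j)) ≤ B * nrm f ![t, 1] ^ N := ciSup_le h1
  calc Real.log (nrm f fun j => eval t (P j)) ≤ Real.log (B * nrm f ![t, 1] ^ N) :=
        Real.log_le_log (nrm_pos f ht) h2
    _ = N * Real.log (nrm f ![t, 1]) + Real.log B := by
        rw [Real.log_mul hB0.ne' (by positivity), Real.log_pow]
        ring

theorem near : S_NEAR := by
  intro K _ f Y _ _ y hy c hc
  classical
  obtain ⟨B, hB⟩ : ∃ B : Y → Y → ℝ, B = fun i j => 1 + (2 + 2 * f (y j)) / f (y i - y j) := ⟨_, rfl⟩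
  have hCi : ∀ i, 0 ≤ ∑ j, c j * |Real.log (B i j)| := fun i =>
    Finset.sum_nonneg fun j _ => mul_nonneg (hc j) (abs_nonneg _)
  refine ⟨∑ i, ∑ j, c j * |Real.log (B i j)|, Finset.sum_nonneg fun i _ => hCi i, fun t ht => ?_⟩
  obtain ⟨i, hi⟩ := Finite.exists_min fun i => f (t - y i)
  refine ⟨i, ?_⟩
  have hpos : ∀ j, 0 < f (t - y j) := fun j => f.pos_iff.2 (sub_ne_zero.2 (ht j))
  have hn0 : 0 < nrm f ![t, 1] := one_pos.trans_le (one_le_nrm f t)
  have h1 : ∀ j, j ≠ i → Real.log (nrm f ![t, 1]) - Real.log (f (t - y j)) ≤ |Real.log (B i j)| := by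
    intro j hj
    have hδ : 0 < f (y i - y j) := f.pos_iff.2 (sub_ne_zero.2 fun h => hj (hy h).symm)
    have h2 : f (y i - y j) ≤ 2 * f (t - y j) := by
      have h3 : y i - y j = (t - y j) - (t - y i) := by ring
      have h4 : f ((t - y j) - (t - y i)) ≤ f (t - y j) + f (t - y i) := by
        have := f.add_le (t - y j) (-(t - y i))
        rw [f.map_neg, ← sub_eq_add_neg] at this
        exact this
      rw [h3]
      have := hi j
      linarith
    have h5 : 1 ≤ 2 / f (y i - y j) * f (t - y j) := by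
      rw [div_mul_eq_mul_div, le_div_iff₀ hδ]
      linarith
    have hyj := f.nonneg (y j)
    have hBv : B i j = 1 + 2 / f (y i - y j) + f (y j) * (2 / f (y i - y j)) := by
      rw [hB]
      field_simp
      ring
    have h6 : nrm f ![t, 1] ≤ B i j * f (t - y j) := by
      have hg := (hpos j).le
      have hd : 0 ≤ 2 / f (y i - y j) := by positivity
      refine ciSup_le fun a => ?_
      fin_cases a
      · simp only [Fin.zero_eta, Matrix.cons_val_zero]
        have h7 : f t ≤ f (t - y j) + f (y j) := by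
          have := f.add_le (t - y j) (y j)
          rwa [sub_add_cancel] at this
        have h8 : f (y j) ≤ f (y j) * (2 / f (y i - y j) * f (t - y j)) := by
          nlinarith
        rw [hBv]
        have h9 : 0 ≤ 2 / f (y i - y j) * f (t - y j) := by positivity
        nlinarith
      · simp only [Fin.mk_one, Matrix.cons_val_one, Matrix.cons_val_fin_one, map_one]
        rw [hBv]
        have h9 : 0 ≤ f (y j) * (2 / f (y i - y j)) * f (t - y j) := by positivity
        nlinarith
    have hB0 : 0 < B i j := by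
      by_contra hcon
      rw [not_lt] at hcon
      have := mul_nonpos_of_nonpos_of_nonneg hcon (hpos j).le
      linarith
    calc Real.log (nrm f ![t, 1]) - Real.log (f (t - y j)) ≤ Real.log (B i j * f (t - y j)) -
          Real.log (f (t - y j)) := by
            have := Real.log_le_log hn0 h6
            linarith
      _ = Real.log (B i j) := by
          rw [Real.log_mul hB0.ne' (hpos j).ne']
          ring
      _ ≤ _ := le_abs_self _
  have h2 : ∀ j, c j * (Real.log (nrm f ![t, 1]) - Real.log (f (t - y j))) ≤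
      (if j = i then c i * max 0 (Real.log (nrm f ![t, 1]) - Real.log (f (t - y i))) else 0) +
        c j * |Real.log (B i j)| := by
    intro j
    by_cases hj : j = i
    · subst hj
      rw [if_pos rfl]
      have h3 := mul_le_mul_of_nonneg_left (le_max_right 0
        (Real.log (nrm f ![t, 1]) - Real.log (f (t - y j)))) (hc j)
      have h4 := mul_nonneg (hc j) (abs_nonneg (Real.log (B j j)))
      linarith
    · rw [if_neg hj, zero_add]
      exact mul_le_mul_of_nonneg_left (h1 j hj) (hc j)
  calc ∑ j, c j * (Real.log (nrm f ![t, 1]) - Real.log (f (t - y j)))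
      ≤ ∑ j, ((if j = i then c i * max 0 (Real.log (nrm f ![t, 1]) - Real.log (f (t - y i)))
          else 0) + c j * |Real.log (B i j)|) := Finset.sum_le_sum fun j _ => h2 j
    _ = c i * max 0 (Real.log (nrm f ![t, 1]) - Real.log (f (t - y i))) +
          ∑ j, c j * |Real.log (B i j)| := by
        rw [Finset.sum_add_distrib, Finset.sum_ite_eq' Finset.univ i, if_pos (Finset.mem_univ _)]
    _ ≤ _ := by
        have := Finset.single_le_sum (f := fun i => ∑ j, c j * |Real.log (B i j)|)
          (fun i _ => hCi i) (Finset.mem_univ i)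
        linarith

/-- homogenization -/
noncomputable def hm {F : Type} [Field F] (N : ℕ) (p : F[X]) : MvPolynomial (Fin 2) F :=
  ∑ i ∈ Finset.range (N + 1), MvPolynomial.C (p.coeff i) * MvPolynomial.X 0 ^ i *
    MvPolynomial.X 1 ^ (N - i)

theorem hm_hom {F : Type} [Field F] (N : ℕ) (p : F[X]) : (hm N p).IsHomogeneous N := by
  unfold hm
  refine MvPolynomial.IsHomogeneous.sum _ _ _ fun i hi => ?_
  have h1 : 0 + i + (N - i) = N := by
    have := Finset.mem_range.1 hi
    omega
  have h2 := ((MvPolynomial.isHomogeneous_C (Fin 2) (p.coeff i)).mul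
    (MvPolynomial.isHomogeneous_X_pow (R := F) (0 : Fin 2) i)).mul
      (MvPolynomial.isHomogeneous_X_pow (R := F) (1 : Fin 2) (N - i))
  rw [h1] at h2
  exact h2

theorem aeval_hm {F L : Type} [Field F] [Field L] [Algebra F L] (N : ℕ) (p : F[X])
    (x : Fin 2 → L) : MvPolynomial.aeval x (hm N p) =
      ∑ i ∈ Finset.range (N + 1), algebraMap F L (p.coeff i) * x 0 ^ i * x 1 ^ (N - i) := by
  unfold hm
  simp only [map_sum, map_mul, map_pow, MvPolynomial.aeval_X, MvPolynomial.aeval_C]

theorem ht : S_HT := by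
  intro k _ _ P N hP ⟨j0, hj0⟩ hnz
  have hzero : ∀ (L : Type) [Field L] [Algebra k L] (x : Fin 2 → L),
      (∀ i, MvPolynomial.aeval x (hm N (P i)) = 0) → x = 0 := by
    intro L _ _ x hx
    by_cases h1 : x 1 = 0
    · have h2 := hx j0
      rw [aeval_hm, Finset.sum_range_succ, Nat.sub_self, pow_zero, mul_one] at h2
      have h3 : ∑ i ∈ Finset.range N, algebraMap k L ((P j0).coeff i) * x 0 ^ i * x 1 ^ (N - i) = 0 := by
        refine Finset.sum_eq_zero fun i hi => ?_
        have := Finset.mem_range.1 hi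
        rw [h1, zero_pow (by omega), mul_zero]
      rw [h3, zero_add] at h2
      have h4 : algebraMap k L ((P j0).coeff N) ≠ 0 := by
        rw [Ne, FaithfulSMul.algebraMap_eq_zero_iff]
        exact hj0
      have h5 : x 0 ^ N = 0 := (mul_eq_zero.1 h2).resolve_left h4
      have h6 : x 0 = 0 := eq_zero_of_pow_eq_zero h5
      funext i
      fin_cases i
      · exact h6
      · exact h1
    · exfalso
      obtain ⟨j, hj⟩ := hnz L (x 0 / x 1)
      apply hj
      have h2 := hx j
      have h3 : MvPolynomial.aeval x (hm N (P j)) = x 1 ^ N * aeval (x 0 / x 1) (P j) := by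
        rw [aeval_hm, Polynomial.aeval_eq_sum_range' (Nat.lt_succ_of_le (hP j)), Finset.mul_sum]
        refine Finset.sum_congr rfl fun i hi => ?_
        have h4 : i ≤ N := by
          have := Finset.mem_range.1 hi
          omega
        rw [Algebra.smul_def, div_pow]
        have h5 : x 1 ^ N = x 1 ^ (N - i) * x 1 ^ i := by rw [← pow_add, Nat.sub_add_cancel h4]
        rw [h5]
        field_simp
      rw [h3] at h2
      exact (mul_eq_zero.1 h2).resolve_left (pow_ne_zero _ h1)
  obtain ⟨M, hM, hA⟩ := null_hom (fun j => hm N (P j)) (fun _ => N) (fun j => hm_hom N (P j)) hzero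
  choose A hA1 hA2 using hA
  obtain ⟨C, hC⟩ := Height.logHeight_eval_ge' (K := k) (M := M - N) (N := N)
    (q := fun a : Fin 2 × Fin 3 => A a.1 a.2) (fun a => hA1 a.1 a.2)
  refine ⟨-C, fun t => ?_⟩
  have h1 := hC (fun j => hm N (P j)) (x := ![t, 1]) (fun a => by
    rw [Nat.sub_add_cancel (hM 0)]
    have h2 := congrArg (MvPolynomial.eval ![t, 1]) (hA2 a)
    rw [map_pow, MvPolynomial.eval_X, map_sum] at h2
    simp only [map_mul] at h2
    exact h2.symm)
  have h2 : (fun j => MvPolynomial.eval ![t, 1] (hm N (P j))) = fun j => eval t (P j) := by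
    funext j
    have h3 := aeval_hm (L := k) N (P j) ![t, 1]
    rw [MvPolynomial.aeval_eq_eval] at h3
    rw [Polynomial.eval_eq_sum_range' (Nat.lt_succ_of_le (hP j))]
    refine h3.trans (Finset.sum_congr rfl fun i _ => ?_)
    simp
  rw [h2] at h1
  linarith

theorem li1 : S_LI1 := by
  intro k _ _ z S
  have hhom : (MvPolynomial.X 0 - MvPolynomial.C z * MvPolynomial.X 1 :
      MvPolynomial (Fin 2) k).IsHomogeneous 1 := by
    refine (MvPolynomial.isHomogeneous_X k 0).sub ?_
    have := (MvPolynomial.isHomogeneous_C (Fin 2) z).mul (MvPolynomial.isHomogeneous_X k (1 : Fin 2))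
    rwa [zero_add] at this
  obtain ⟨C, hC0, hC⟩ := liou _ 1 hhom
  refine ⟨C, hC0, fun t ht => ?_⟩
  have hx : (![t, 1] : Fin 2 → k) ≠ 0 := fun h => by simpa using congrFun h 1
  have he : MvPolynomial.eval ![t, 1] (MvPolynomial.X 0 - MvPolynomial.C z * MvPolynomial.X 1 :
      MvPolynomial (Fin 2) k) = t - z := by simp
  have hne : MvPolynomial.eval ![t, 1] (MvPolynomial.X 0 - MvPolynomial.C z * MvPolynomial.X 1 :
      MvPolynomial (Fin 2) k) ≠ 0 := by
    rw [he]
    exact sub_ne_zero.2 ht
  have h1 := hC S ![t, 1] hx hne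
  have h2 : ∀ p : Pl k, Pool.Agent.W180.OP.lam (av p) 1 (MvPolynomial.X 0 - MvPolynomial.C z *
      MvPolynomial.X 1 : MvPolynomial (Fin 2) k) ![t, 1] =
      Real.log (nrm (av p) ![t, 1]) - Real.log (av p (t - z)) := by
    intro p
    rw [lam_eq _ _ _ hx hne, he, Nat.cast_one, one_mul]
  simp only [h2, Nat.cast_one, one_mul] at h1
  exact h1

end Pool.Agent.N539.VR
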